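import Pool.Agent.TH477.PA.Defs
set_option autoImplicit false

namespace Pool.Agent.TH402.J640

open Finset Pool.Agent.TH477.PA

/-- finite check for the inequality `I1` -/
theorem fin1 : ∀ u ∈ Icc 3 31,
    5 ^ (5 * (u - 1)) * (u * (u + 1) / 2) ^ (2 * u - 5) ≤ (2 * u) ^ (5 * (u - 1)) := by
  decide +kernel

theorem fin2 : ∀ u ∈ Icc 3 27, ∀ N ∈ Icc 3 (u + 2),
    N ^ (3 * (u - 1)) ≤ (u * (u + 1) / 2) ^ (u - 2 + N) := by
  decide +kernel

theorem I1 (u : ℕ) (hu : 3 ≤ u) (C : ℕ) (hC : C = u * (u + 1) / 2) :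
    (2 * (u : ℝ) / 5 - 1) * Real.log C ≤ ((u : ℝ) - 1) * Real.log (2 * u / 5) := by
  have hu0 : (3 : ℝ) ≤ u := by exact_mod_cast hu
  have hC2 : 2 * C = u * (u + 1) := by
    subst hC
    exact Nat.mul_div_cancel' (Nat.even_mul_succ_self u).two_dvd
  have hC2' : 2 * (C : ℝ) = u * (u + 1) := by exact_mod_cast hC2
  have hCpos : (0 : ℝ) < C := by nlinarith
  have hlogdiv : Real.log (2 * u / 5) = Real.log (2 * u) - Real.log 5 := by
    rw [Real.log_div (by positivity) (by norm_num)]
  by_cases h : u ≤ 31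
  · have h1 := fin1 u (mem_Icc.mpr ⟨hu, h⟩)
    rw [← hC] at h1
    have h2 : (5 : ℝ) ^ (5 * (u - 1)) * (C : ℝ) ^ (2 * u - 5) ≤ (2 * u : ℝ) ^ (5 * (u - 1)) := by
      exact_mod_cast h1
    have h3 := Real.log_le_log (by positivity) h2
    rw [Real.log_mul (by positivity) (by positivity), Real.log_pow, Real.log_pow, Real.log_pow] at h3
    have c1 : ((5 * (u - 1) : ℕ) : ℝ) = 5 * ((u : ℝ) - 1) := by
      push_cast [Nat.cast_sub (by omega : 1 ≤ u)]; ring
    have c2 : ((2 * u - 5 : ℕ) : ℝ) = 2 * (u : ℝ) - 5 := by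
      push_cast [Nat.cast_sub (by omega : 5 ≤ 2 * u)]; ring
    rw [c1, c2] at h3
    rw [hlogdiv]
    nlinarith
  · push_neg at h
    have hu32 : (32 : ℝ) ≤ u := by exact_mod_cast (by omega : 32 ≤ u)
    have hl2 : 0.69 < Real.log 2 := by
      have := Real.log_two_gt_d9
      linarith
    have hl2' : Real.log 2 < 0.7 := by
      have := Real.log_two_lt_d9
      linarith
    have hell : 5 * Real.log 2 ≤ Real.log u := by
      have : Real.log ((2 : ℝ) ^ 5) ≤ Real.log u := Real.log_le_log (by norm_num) (by linarith)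
      rw [Real.log_pow] at this
      exact_mod_cast this
    have h52 : 3 * Real.log 5 ≤ 7 * Real.log 2 := by
      have : Real.log ((5 : ℝ) ^ 3) ≤ Real.log ((2 : ℝ) ^ 7) :=
        Real.log_le_log (by norm_num) (by norm_num)
      rw [Real.log_pow, Real.log_pow] at this
      exact_mod_cast this
    have hlC : Real.log C = Real.log u + Real.log (u + 1) - Real.log 2 := by
      have : (C : ℝ) = u * (u + 1) / 2 := by linarith
      rw [this, Real.log_div (by positivity) (by norm_num), Real.log_mul (by positivity) (by positivity)]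
    have hlu1 : Real.log (u + 1) ≤ Real.log u + 1 / u := by
      have h1 : ((u : ℝ) + 1) = u * (1 + 1 / u) := by field_simp
      rw [h1, Real.log_mul (by positivity) (by positivity)]
      have h2 := Real.log_le_sub_one_of_pos (show (0 : ℝ) < 1 + 1 / u by positivity)
      linarith
    have hl2u : Real.log (2 * (u : ℝ)) = Real.log 2 + Real.log u :=
      Real.log_mul (by norm_num) (by positivity)
    rw [hlogdiv, hl2u]
    have hlC' : Real.log C ≤ 2 * Real.log u + 1 / u - Real.log 2 := by rw [hlC]; linarith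
    have hpos : 0 ≤ 2 * (u : ℝ) / 5 - 1 := by linarith
    have h1 : (2 * (u : ℝ) / 5 - 1) * Real.log C ≤
        (2 * (u : ℝ) / 5 - 1) * (2 * Real.log u + 1 / u - Real.log 2) :=
      mul_le_mul_of_nonneg_left hlC' hpos
    have h2 : (2 * (u : ℝ) / 5 - 1) * (1 / u) ≤ 2 / 5 := by
      have : (2 * (u : ℝ) / 5 - 1) * (1 / u) = 2 / 5 - 1 / u := by field_simp
      rw [this]
      have : (0 : ℝ) ≤ 1 / u := by positivity
      linarith
    have h3 : ((u : ℝ) - 1) * Real.log 5 ≤ ((u : ℝ) - 1) * (7 / 3 * Real.log 2) :=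
      mul_le_mul_of_nonneg_left (by linarith) (by linarith)
    nlinarith [mul_nonneg (show (0 : ℝ) ≤ u / 5 + 1 by positivity) (sub_nonneg.mpr hell)]

/-- `Nρ ≤ Σ_j j` -/
theorem sum_id (u : ℕ) : ∑ j ∈ Icc 1 u, j = u * (u + 1) / 2 := by
  have h := Finset.sum_range_id_mul_two (u + 1)
  have h2 : ∑ j ∈ Icc 1 u, j = ∑ j ∈ range (u + 1), j := by
    rw [Finset.range_eq_Ico]
    rw [Finset.sum_eq_sum_Ico_succ_bot (by omega : 0 < u + 1)]
    simp only [zero_add]
    rfl
  rw [h2]
  simp only [Nat.add_sub_cancel] at h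
  rw [mul_comm u (u + 1)]
  omega

theorem card_le (u : ℕ) (y : ℝ) (hy : 0 < y) (hyu : y ≤ u + 1) :
    (((Icc 1 u).filter (fun j : ℕ => y ≤ (j : ℝ))).card : ℝ) ≤ u + 1 - y := by
  have hsub : (Icc 1 u).filter (fun j : ℕ => y ≤ (j : ℝ)) ⊆ Icc ⌈y⌉₊ u := by
    intro j hj
    rw [mem_filter, mem_Icc] at hj
    rw [mem_Icc]
    exact ⟨Nat.ceil_le.mpr hj.2, hj.1.2⟩
  have h1 := card_le_card hsub
  rw [Nat.card_Icc] at h1
  have h2 : y ≤ (⌈y⌉₊ : ℝ) := Nat.le_ceil y
  have h3 : ⌈y⌉₊ ≤ u + 1 := by
    apply Nat.ceil_le.mpr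
    exact_mod_cast hyu
  have h4 : (((Icc 1 u).filter (fun j : ℕ => y ≤ (j : ℝ))).card : ℝ) ≤ ((u + 1 - ⌈y⌉₊ : ℕ) : ℝ) := by
    exact_mod_cast h1
  rw [Nat.cast_sub h3] at h4
  push_cast at h4
  linarith

theorem choose_eq (u : ℕ) : (u + 1).choose 2 = u * (u + 1) / 2 := by
  rw [Nat.choose_two_right, Nat.add_sub_cancel, mul_comm]

theorem AR0 (u : ℕ) (hu : 3 ≤ u) (y : ℝ) (hy1 : 1 < y) (hy2 : y ≤ u / 2) (N : ℕ) (hN3 : 3 ≤ N)
    (m : ℕ → ℕ) (hm : ∀ j, 1 ≤ j → j ≤ u → (m j : ℝ) * y ≤ j) (hN : N ≤ ∑ j ∈ Icc 1 u, m j)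
    (C : ℕ) (hC : C = u * (u + 1) / 2) (hNC : (N : ℝ) * y ≤ C) :
    ((u : ℝ) - 1) * Real.log N ≤ ((u : ℝ) - y) * Real.log C := by
  have hu0 : (3 : ℝ) ≤ u := by exact_mod_cast hu
  have hN0 : (3 : ℝ) ≤ N := by exact_mod_cast hN3
  have hC2 : 2 * C = u * (u + 1) := by
    subst hC
    exact Nat.mul_div_cancel' (Nat.even_mul_succ_self u).two_dvd
  have hC2' : 2 * (C : ℝ) = u * (u + 1) := by exact_mod_cast hC2
  have hCpos : (0 : ℝ) < C := by nlinarith
  have hC6 : (6 : ℝ) ≤ C := by nlinarith
  have hlCpos : 0 < Real.log C := Real.log_pos (by linarith)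
  by_cases hc : y ≤ 2 * u / 5
  · -- small y
    have hI := I1 u hu C hC
    set Y : ℝ := 2 * u / 5 with hY
    have hY1 : 1 < Y := by rw [hY]; linarith
    have hlogy : (y - 1) * Real.log Y ≤ (Y - 1) * Real.log y := by
      have hcc := (strictConcaveOn_log_Ioi.concaveOn).2 (show (1 : ℝ) ∈ Set.Ioi 0 by simp)
        (show Y ∈ Set.Ioi (0 : ℝ) by simp only [Set.mem_Ioi]; linarith)
        (show 0 ≤ (Y - y) / (Y - 1) from div_nonneg (by linarith) (by linarith))
        (show 0 ≤ (y - 1) / (Y - 1) from div_nonneg (by linarith) (by linarith))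
        (by
          have : Y - 1 ≠ 0 := by linarith
          field_simp
          ring)
      simp only [smul_eq_mul, Real.log_one, mul_zero, zero_add, mul_one] at hcc
      have hne : Y - 1 ≠ 0 := by linarith
      have heq : (Y - y) / (Y - 1) + (y - 1) / (Y - 1) * Y = y := by
        field_simp
        ring
      rw [heq] at hcc
      have hp : 0 < Y - 1 := by linarith
      rw [div_mul_eq_mul_div, div_le_iff₀ hp] at hcc
      linarith
    have hkey : (y - 1) * Real.log C ≤ ((u : ℝ) - 1) * Real.log y := by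
      have hp : 0 < Y - 1 := by linarith
      have h1 : (Y - 1) * ((y - 1) * Real.log C) ≤ (Y - 1) * (((u : ℝ) - 1) * Real.log y) := by
        have e1 : (y - 1) * ((Y - 1) * Real.log C) ≤ (y - 1) * (((u : ℝ) - 1) * Real.log Y) :=
          mul_le_mul_of_nonneg_left hI (by linarith)
        have e2 : ((u : ℝ) - 1) * ((y - 1) * Real.log Y) ≤ ((u : ℝ) - 1) * ((Y - 1) * Real.log y) :=
          mul_le_mul_of_nonneg_left hlogy (by linarith)
        linarith
      exact le_of_mul_le_mul_left h1 hp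
    have hlN : Real.log N + Real.log y ≤ Real.log C := by
      rw [← Real.log_mul (by positivity) (by positivity)]
      exact Real.log_le_log (by positivity) hNC
    have e3 : ((u : ℝ) - 1) * (Real.log N + Real.log y) ≤ ((u : ℝ) - 1) * Real.log C :=
      mul_le_mul_of_nonneg_left hlN (by linarith)
    linarith
  · push_neg at hc
    -- y > 2u/5, so m j ≤ 2
    have hNb : (N : ℝ) ≤ 2 * u + 2 - 3 * y := by
      have hmj : ∀ j ∈ Icc 1 u, m j ≤ (if y ≤ (j : ℝ) then 1 else 0) + (if 2 * y ≤ (j : ℝ) then 1 else 0) := by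
        intro j hj
        rw [mem_Icc] at hj
        have h1 := hm j hj.1 hj.2
        have hju : (j : ℝ) ≤ u := by exact_mod_cast hj.2
        by_contra hcon
        push_neg at hcon
        have h3 : m j < 3 := by
          by_contra h3
          push_neg at h3
          have : (3 : ℝ) ≤ m j := by exact_mod_cast h3
          nlinarith
        by_cases c1 : y ≤ (j : ℝ)
        · by_cases c2 : 2 * y ≤ (j : ℝ)
          · rw [if_pos c1, if_pos c2] at hcon
            omega
          · rw [if_pos c1, if_neg c2] at hcon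
            have : m j = 2 := by omega
            rw [this] at h1
            push_cast at h1
            exact c2 h1
        · have c2 : ¬ 2 * y ≤ (j : ℝ) := fun h => c1 (by linarith)
          rw [if_neg c1, if_neg c2] at hcon
          have h1' : (1 : ℝ) ≤ m j := by exact_mod_cast (by omega : 1 ≤ m j)
          apply c1
          nlinarith
      have hs := (hN.trans (sum_le_sum hmj))
      rw [sum_add_distrib, ← card_filter, ← card_filter] at hs
      have hs' : (N : ℝ) ≤ (((Icc 1 u).filter (fun j : ℕ => y ≤ (j : ℝ))).card : ℝ) +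
          (((Icc 1 u).filter (fun j : ℕ => 2 * y ≤ (j : ℝ))).card : ℝ) := by
        exact_mod_cast hs
      have a1 := card_le u y (by linarith) (by linarith)
      have a2 := card_le u (2 * y) (by linarith) (by linarith)
      linarith
    have hrest : ((u : ℝ) - 2 + N) / 3 ≤ (u : ℝ) - y := by linarith
    by_cases hu28 : u ≤ 27
    · have hNu : N ≤ u + 2 := by
        have : (N : ℝ) ≤ u + 2 := by linarith
        exact_mod_cast this
      have h1 := fin2 u (mem_Icc.mpr ⟨hu, hu28⟩) N (mem_Icc.mpr ⟨hN3, hNu⟩)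
      rw [← hC] at h1
      have h2 : (N : ℝ) ^ (3 * (u - 1)) ≤ (C : ℝ) ^ (u - 2 + N) := by exact_mod_cast h1
      have h3 := Real.log_le_log (by positivity) h2
      rw [Real.log_pow, Real.log_pow] at h3
      have c1 : ((3 * (u - 1) : ℕ) : ℝ) = 3 * ((u : ℝ) - 1) := by
        push_cast [Nat.cast_sub (by omega : 1 ≤ u)]; ring
      have c2 : ((u - 2 + N : ℕ) : ℝ) = (u : ℝ) - 2 + N := by
        push_cast [Nat.cast_sub (by omega : 2 ≤ u)]; ring
      rw [c1, c2] at h3
      have h4 : ((u : ℝ) - 2 + N) / 3 * Real.log C ≤ ((u : ℝ) - y) * Real.log C :=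
        mul_le_mul_of_nonneg_right hrest hlCpos.le
      linarith
    · push_neg at hu28
      have hu28' : (28 : ℝ) ≤ u := by exact_mod_cast (by omega : 28 ≤ u)
      have hl2 : 0.69 < Real.log 2 := by
        have := Real.log_two_gt_d9
        linarith
      set t : ℝ := u / 2 + 2 with ht
      have htpos : 0 < t := by rw [ht]; positivity
      -- I2
      have hI2 : ((u : ℝ) - 1) * Real.log t ≤ u / 2 * Real.log C := by
        have hh : (0 : ℝ) < u / 2 := by linarith
        have h1 : Real.log t ≤ Real.log (u / 2) + 4 / u := by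
          have e : t = (u / 2) * (1 + 4 / u) := by rw [ht]; field_simp; ring
          rw [e, Real.log_mul (by positivity) (by positivity)]
          have := Real.log_le_sub_one_of_pos (show (0 : ℝ) < 1 + 4 / u by positivity)
          linarith
        have h2 : 2 * Real.log (u / 2) + Real.log 2 ≤ Real.log C := by
          have e : 2 * Real.log ((u : ℝ) / 2) + Real.log 2 = Real.log ((u : ℝ) * u / 2) := by
            rw [Real.log_div (by positivity) (by norm_num), Real.log_div (by positivity) (by norm_num),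
              Real.log_mul (by positivity) (by positivity)]
            ring
          rw [e]
          apply Real.log_le_log (by positivity)
          nlinarith
        have h3 : 0 ≤ Real.log ((u : ℝ) / 2) := Real.log_nonneg (by linarith)
        have h4 : ((u : ℝ) - 1) * Real.log t ≤ ((u : ℝ) - 1) * (Real.log (u / 2) + 4 / u) :=
          mul_le_mul_of_nonneg_left h1 (by linarith)
        have h5 : ((u : ℝ) - 1) * (4 / u) ≤ 4 := by
          have : ((u : ℝ) - 1) * (4 / u) = 4 - 4 / u := by field_simp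
          rw [this]
          have : (0 : ℝ) ≤ 4 / u := by positivity
          linarith
        have h6 : u / 2 * (2 * Real.log (u / 2) + Real.log 2) ≤ u / 2 * Real.log C :=
          mul_le_mul_of_nonneg_left h2 hh.le
        nlinarith
      by_cases hNt : (N : ℝ) ≤ t
      · have h1 : Real.log N ≤ Real.log t := Real.log_le_log (by linarith) hNt
        have h2 : ((u : ℝ) - 1) * Real.log N ≤ ((u : ℝ) - 1) * Real.log t :=
          mul_le_mul_of_nonneg_left h1 (by linarith)
        have h3 : (u : ℝ) / 2 * Real.log C ≤ ((u : ℝ) - y) * Real.log C :=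
          mul_le_mul_of_nonneg_right (by linarith) hlCpos.le
        linarith
      · push_neg at hNt
        have hlC6 : 6 ≤ Real.log C := by
          have hC256 : (406 : ℝ) ≤ C := by nlinarith
          rw [Real.le_log_iff_exp_le (by linarith)]
          have he := Real.exp_one_lt_d9
          have : Real.exp 6 = Real.exp 1 ^ 6 := by
            rw [← Real.exp_nat_mul]; norm_num
          rw [this]
          calc Real.exp 1 ^ 6 ≤ (2.72 : ℝ) ^ 6 :=
                pow_le_pow_left₀ (Real.exp_pos 1).le (by linarith) 6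
            _ ≤ 406 := by norm_num
            _ ≤ C := hC256
        have hlogN : Real.log N ≤ Real.log t + (N - t) / t := by
          have h1 := Real.log_le_sub_one_of_pos (show (0 : ℝ) < N / t from div_pos (by linarith) htpos)
          rw [Real.log_div (by positivity) (by positivity)] at h1
          have h2 : (N : ℝ) / t - 1 = (N - t) / t := by field_simp
          linarith
        have h1 : ((u : ℝ) - 1) * Real.log N ≤ ((u : ℝ) - 1) * (Real.log t + (N - t) / t) :=
          mul_le_mul_of_nonneg_left hlogN (by linarith)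
        have h2 : ((u : ℝ) - 1) * ((N - t) / t) ≤ 2 * (N - t) := by
          rw [mul_div_assoc', div_le_iff₀ htpos]
          have : (0 : ℝ) ≤ N - t := by linarith
          have h3 : (u : ℝ) - 1 ≤ 2 * t := by rw [ht]; linarith
          nlinarith
        have h3 : 2 * ((N : ℝ) - t) ≤ Real.log C / 3 * (N - t) :=
          mul_le_mul_of_nonneg_right (by linarith) (by linarith)
        have h4 : ((u : ℝ) - 2 + N) / 3 * Real.log C ≤ ((u : ℝ) - y) * Real.log C :=
          mul_le_mul_of_nonneg_right hrest hlCpos.le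
        have h5 : (u : ℝ) / 2 * Real.log C + Real.log C / 3 * (N - t) =
            ((u : ℝ) - 2 + N) / 3 * Real.log C := by rw [ht]; ring
        linarith

theorem J1_AR (u : ℕ) (hu : 3 ≤ u) (y : ℝ) (hy1 : 1 < y) (hy2 : y ≤ u / 2) (N : ℕ) (hN3 : 3 ≤ N)
    (m : ℕ → ℕ) (hm : ∀ j, 1 ≤ j → j ≤ u → (m j : ℝ) * y ≤ j) (hN : N ≤ ∑ j ∈ Icc 1 u, m j) :
    ((u : ℝ) - 1) * Real.log ((N : ℝ) - 1) <
      ((u : ℝ) - y) * Real.log ((((u + 1).choose 2 : ℕ) : ℝ) - 1) := by
  have hu0 : (3 : ℝ) ≤ u := by exact_mod_cast hu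
  have hN0 : (3 : ℝ) ≤ N := by exact_mod_cast hN3
  obtain ⟨C, hC⟩ : ∃ C, C = u * (u + 1) / 2 := ⟨_, rfl⟩
  rw [choose_eq, ← hC]
  have hC2 : 2 * C = u * (u + 1) := by
    subst hC
    exact Nat.mul_div_cancel' (Nat.even_mul_succ_self u).two_dvd
  have hC2' : 2 * (C : ℝ) = u * (u + 1) := by exact_mod_cast hC2
  have hNC : (N : ℝ) * y ≤ C := by
    have h1 : (N : ℝ) ≤ ∑ j ∈ Icc 1 u, (m j : ℝ) := by exact_mod_cast hN
    have h2 : (∑ j ∈ Icc 1 u, (m j : ℝ)) * y ≤ ∑ j ∈ Icc 1 u, (j : ℝ) := by
      rw [sum_mul]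
      refine sum_le_sum fun j hj => ?_
      rw [mem_Icc] at hj
      exact hm j hj.1 hj.2
    have h3 : ∑ j ∈ Icc 1 u, (j : ℝ) = C := by
      rw [hC, ← sum_id u]
      push_cast
      rfl
    have h4 : (N : ℝ) * y ≤ (∑ j ∈ Icc 1 u, (m j : ℝ)) * y :=
      mul_le_mul_of_nonneg_right h1 (by linarith)
    linarith
  have h0 := AR0 u hu y hy1 hy2 N hN3 m hm hN C hC hNC
  have hNltC : (N : ℝ) < C := by nlinarith
  have hCpos : (0 : ℝ) < C := by linarith
  -- log (N-1) = log N + log (1 - 1/N)
  have e1 : Real.log ((N : ℝ) - 1) = Real.log N + Real.log (1 - 1 / N) := by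
    rw [← Real.log_mul (by positivity) (by
      have : (1 : ℝ) / N ≤ 1 / 3 := one_div_le_one_div_of_le (by norm_num) hN0
      linarith)]
    congr 1
    field_simp
  have e2 : Real.log ((C : ℝ) - 1) = Real.log C + Real.log (1 - 1 / C) := by
    rw [← Real.log_mul (by positivity) (by
      have : (1 : ℝ) / C ≤ 1 / 3 := one_div_le_one_div_of_le (by norm_num) (by linarith)
      linarith)]
    congr 1
    field_simp
  have hlt : Real.log (1 - 1 / (N : ℝ)) < Real.log (1 - 1 / (C : ℝ)) := by
    apply Real.log_lt_log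
    · have : (1 : ℝ) / N ≤ 1 / 3 := one_div_le_one_div_of_le (by norm_num) hN0
      linarith
    · have : (1 : ℝ) / C < 1 / N := one_div_lt_one_div_of_lt (by linarith) hNltC
      linarith
  have hneg : Real.log (1 - 1 / (C : ℝ)) < 0 := by
    apply Real.log_neg
    · have : (1 : ℝ) / C ≤ 1 / 3 := one_div_le_one_div_of_le (by norm_num) (by linarith)
      linarith
    · have : (0 : ℝ) < 1 / C := by positivity
      linarith
  rw [e1, e2]
  nlinarith [mul_lt_mul_of_pos_left hlt (show (0 : ℝ) < u - 1 by linarith)]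

end Pool.Agent.TH402.J640
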