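import Mathlib

/-! Lifting of a map from a normed space through a covering homomorphism. -/

namespace Pool.Agent.TH77.AN
open Filter Topology Set Metric

/-- JOB C. Lifting through a covering homomorphism. -/
theorem exists_lift_hom {Z : Type*} [NormedAddCommGroup Z] [NormedSpace ℝ Z] [FiniteDimensional ℝ Z]
    {A : Type*} [Group A] [TopologicalSpace A] [IsTopologicalGroup A] [T2Space A] (e : Z → A)
    (he : ∀ x y, e (x + y) = e x * e y) (hc : Continuous e) (hinj : ∃ r > 0, InjOn e (ball 0 r))
    (hopen : ∀ W ∈ 𝓝 (0 : Z), ∃ U ∈ 𝓝 (1 : A), ∀ a ∈ U, a ∈ range e → a ∈ e '' W)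
    {T : Type*} [NormedAddCommGroup T] [NormedSpace ℝ T] (z : T → A) (hz : Continuous z)
    (hzr : ∀ t, z t ∈ range e) (h0 : z 0 = 1) :
    ∃ ζ : T → Z, Continuous ζ ∧ ζ 0 = 0 ∧ ∀ t, e (ζ t) = z t := by
  classical
  have e0 : e 0 = 1 := by
    have h := he 0 0
    rw [add_zero] at h
    exact (mul_eq_left.1 h.symm)
  have eneg : ∀ x, e (-x) = (e x)⁻¹ := by
    intro x
    have h := he x (-x)
    rw [add_neg_cancel, e0] at h
    exact (inv_eq_of_mul_eq_one_right h.symm).symm
  have esub : ∀ x y, e (x - y) = e x * (e y)⁻¹ := by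
    intro x y
    rw [sub_eq_add_neg, he, eneg]
  set p : Z → range e := Set.rangeFactorization e with hp
  have pc : Continuous p := hc.subtype_mk _
  have ps : Function.Surjective p := Set.rangeFactorization_surjective
  have po : IsOpenMap p := by
    rw [isOpenMap_iff_nhds_le]
    intro x
    intro S hS
    rw [Filter.mem_map] at hS
    -- `hS : p ⁻¹' S ∈ 𝓝 x`
    have hW : (fun w => w + x) ⁻¹' (p ⁻¹' S) ∈ 𝓝 (0 : Z) := by
      have hcont : ContinuousAt (fun w : Z => w + x) 0 := by fun_prop
      apply hcont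
      simpa using hS
    obtain ⟨U, hU, hUr⟩ := hopen _ hW
    have hcont : ContinuousAt (fun b : range e => (b : A) * (e x)⁻¹) (p x) := by fun_prop
    have h1 : (p x : A) * (e x)⁻¹ = 1 := by
      rw [hp]
      simp [Set.rangeFactorization]
    have hV : (fun b : range e => (b : A) * (e x)⁻¹) ⁻¹' U ∈ 𝓝 (p x) := by
      apply hcont
      show U ∈ 𝓝 ((p x : A) * (e x)⁻¹)
      rw [h1]
      exact hU
    refine Filter.mem_of_superset hV ?_
    rintro ⟨b, y, rfl⟩ hb
    have hb' : e y * (e x)⁻¹ ∈ U := hb
    rw [← esub] at hb'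
    obtain ⟨w, hw, hwe⟩ := hUr _ hb' ⟨_, rfl⟩
    have hw' : p (w + x) ∈ S := hw
    have : p (w + x) = ⟨e y, ⟨y, rfl⟩⟩ := by
      apply Subtype.ext
      show e (w + x) = e y
      rw [he, hwe, esub]
      group
    rw [this] at hw'
    exact hw'
  let K : AddSubgroup Z :=
    { carrier := {x | e x = 1}
      add_mem' := by
        intro a b ha hb
        have ha' : e a = 1 := ha
        have hb' : e b = 1 := hb
        show e (a + b) = 1
        rw [he, ha', hb', mul_one]
      zero_mem' := e0
      neg_mem' := by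
        intro a ha
        have ha' : e a = 1 := ha
        show e (-a) = 1
        rw [eneg, ha', inv_one] }
  have hK : IsDiscrete (K : Set Z) := by
    obtain ⟨r, hr, hinj⟩ := hinj
    refine IsDiscrete.of_nhdsWithin fun x hx => ?_
    rw [Filter.le_pure_iff]
    refine Filter.mem_of_superset
      (Filter.inter_mem (mem_nhdsWithin_of_mem_nhds (Metric.ball_mem_nhds x hr))
        self_mem_nhdsWithin) ?_
    rintro y ⟨hy, hyK⟩
    have hx' : e x = 1 := hx
    have hy' : e y = 1 := hyK
    have h1 : y - x ∈ ball (0 : Z) r := by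
      rw [mem_ball_zero_iff, ← dist_eq_norm]
      exact hy
    have h2 : (0 : Z) ∈ ball (0 : Z) r := mem_ball_self hr
    have h3 : e (y - x) = e 0 := by rw [esub, hx', hy', e0]; simp
    have h4 := hinj h1 h2 h3
    exact sub_eq_zero.1 h4
  have hcov : IsCoveringMap p := by
    have hq : IsQuotientMap p := po.isQuotientMap pc ps
    have h1 := hq.isAddQuotientCoveringMap_of_addSubgroup K hK (by
      intro a b
      constructor
      · intro h
        have h2 : e a = e b := congrArg Subtype.val h
        show e (b + -a) = 1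
        rw [he, eneg, h2, mul_inv_cancel]
      · intro h
        apply Subtype.ext
        have h2 : e (b + -a) = 1 := h
        rw [he, eneg] at h2
        show e a = e b
        exact (mul_inv_eq_one.1 h2).symm)
    exact h1.isCoveringMap
  obtain ⟨F, ⟨hF0, hF⟩, -⟩ := hcov.existsUnique_continuousMap_lifts
    (⟨fun t => ⟨z t, hzr t⟩, by fun_prop⟩ : C(T, range e)) 0 0 (by
      apply Subtype.ext
      show e 0 = z 0
      rw [e0, h0])
  refine ⟨F, F.continuous, hF0, fun t => ?_⟩
  have := congrFun hF t
  exact congrArg Subtype.val this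

end Pool.Agent.TH77.AN
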